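import Pool.Agent.Helper82.DG.Base

/-!
# Dark grids, module A: the vertices `P j` are ordered by their abscissas

`CN H X Y h w p p'`: the chain of `p`, which consists of the edge `w p` (from the corner `w`, of
coordinates `(0, h)`) and of the vertical edge `p p'`.  `Lf X Y h p z`: the vertex `z` lies on the
left of the chain.
-/

set_option autoImplicit false

namespace Pool.Agent.Helper82.DG

open Pool.Agent.Helper18.RAC

variable {V : Type*}

/-- first zero of the minimum of two affine functions which are positive at `0` -/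
theorem first_zero {a1 a2 b1 b2 : ℝ} (h1 : 0 < a1) (h2 : 0 < a2) (h : ¬ (0 < b1 ∧ 0 < b2)) :
    ∃ t : ℝ, 0 < t ∧ t ≤ 1 ∧
      (((1 - t) * a1 + t * b1 = 0 ∧ 0 ≤ (1 - t) * a2 + t * b2) ∨
        ((1 - t) * a2 + t * b2 = 0 ∧ 0 ≤ (1 - t) * a1 + t * b1)) := by
  by_cases hb1 : b1 ≤ 0
  · by_cases hc : 0 ≤ a1 * b2 - b1 * a2
    · have h3 : 0 < a1 - b1 := by linarith
      refine ⟨a1 / (a1 - b1), by positivity, (div_le_one h3).2 (by linarith), Or.inl ⟨?_, ?_⟩⟩
      · field_simp; ring
      · have : (1 - a1 / (a1 - b1)) * a2 + a1 / (a1 - b1) * b2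
            = (a1 * b2 - b1 * a2) / (a1 - b1) := by
          field_simp; ring
        rw [this]; positivity
    · push Not at hc
      have hb2 : b2 < 0 := by
        by_contra hb
        push Not at hb
        nlinarith [mul_nonneg h1.le hb, mul_nonneg (neg_nonneg.2 hb1) h2.le]
      have h3 : 0 < a2 - b2 := by linarith
      refine ⟨a2 / (a2 - b2), by positivity, (div_le_one h3).2 (by linarith), Or.inr ⟨?_, ?_⟩⟩
      · field_simp; ring
      · have : (1 - a2 / (a2 - b2)) * a1 + a2 / (a2 - b2) * b1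
            = (-(a1 * b2 - b1 * a2)) / (a2 - b2) := by
          field_simp; ring
        rw [this]
        exact div_nonneg (by linarith) h3.le
  · push Not at hb1
    have hb2 : b2 ≤ 0 := by
      by_contra hb
      push Not at hb
      exact h ⟨hb1, hb⟩
    have h3 : 0 < a2 - b2 := by linarith
    refine ⟨a2 / (a2 - b2), by positivity, (div_le_one h3).2 (by linarith), Or.inr ⟨?_, ?_⟩⟩
    · field_simp; ring
    · have : (1 - a2 / (a2 - b2)) * a1 + a2 / (a2 - b2) * b1
          = (a2 * b1 + (-b2) * a1) / (a2 - b2) := by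
        field_simp; ring
      rw [this]
      have h4 := mul_pos h2 hb1
      have h5 := mul_nonneg (neg_nonneg.2 hb2) h1.le
      exact div_nonneg (by linarith) h3.le

/-- two edges from `u` do not have the same direction -/
theorem no_ray {H : SimpleGraph V} {X Y : V → ℝ} {E F : ℝ} (hd : ADraw H X Y E F) {u v1 v2 : V}
    (h1 : H.Adj u v1) (h2 : H.Adj u v2) (hne : v1 ≠ v2) {k : ℝ} (hk : 0 < k)
    (hx : X v2 - X u = k * (X v1 - X u)) (hy : Y v2 - Y u = k * (Y v1 - Y u)) : False := by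
  rcases le_or_gt k 1 with hk1 | hk1
  · exact hd.vtx u v1 v2 h1 h2.ne' hne.symm k hk.le hk1 (by linear_combination hx)
      (by linear_combination hy)
  · refine hd.vtx u v2 v1 h2 h1.ne' hne (1 / k) (by positivity)
      ((div_le_one hk).2 hk1.le) ?_ ?_
    · have : X v2 = X u + k * (X v1 - X u) := by linear_combination hx
      rw [this]; field_simp; ring
    · have : Y v2 = Y u + k * (Y v1 - Y u) := by linear_combination hy
      rw [this]; field_simp; ring

/-- a chain -/
structure CN (H : SimpleGraph V) (X Y : V → ℝ) (h : ℝ) (w p p' : V) : Prop where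
  Xw : X w = 0
  Yw : Y w = h
  X_pos : 0 < X p
  Y_pos : 0 < Y p
  Y_lt : Y p < h
  Xp' : X p' = X p
  Yp' : Y p' < 0
  wp : H.Adj w p
  pp' : H.Adj p p'

/-- left of a chain -/
def Lf (X Y : V → ℝ) (h : ℝ) (p z : V) : Prop :=
  X z < X p ∧ X z * (h - Y p) < X p * (h - Y z)

section

variable {H : SimpleGraph V} {X Y : V → ℝ} {E F h : ℝ} {w p p' : V}

/-- an edge from a left vertex to a right vertex: two types -/
theorem CN.cross (hd : ADraw H X Y E F) (hc : CN H X Y h w p p') {z1 z2 : V}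
    (hz : H.Adj z1 z2) (h1 : z1 ≠ p) (h2 : z2 ≠ p) (hX1 : 0 < X z1) (hY1 : 0 < Y z1)
    (hX2 : 0 < X z2) (hY2 : 0 ≤ Y z2) (hl : Lf X Y h p z1)
    (hr : ¬ Lf X Y h p z2) :
    (X z1 < X z2 ∧ Y z1 = Y z2 ∧ Y z2 < Y p) ∨
      (X z1 < X z2 ∧ Y z1 < Y z2 ∧ Y p < Y z2 ∧
        E * X p * (X z2 - X z1) = F * (h - Y p) * (Y z2 - Y z1)) := by
  have hE := hd.E_pos
  have hF := hd.F_pos
  have hx := hc.X_pos
  have hy := hc.Y_pos
  have hyh : 0 < h - Y p := by linarith [hc.Y_lt]
  have hYp' := hc.Yp'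
  obtain ⟨t, ht0, ht1, ht⟩ := first_zero (a1 := X p - X z1)
    (a2 := X p * (h - Y z1) - X z1 * (h - Y p)) (b1 := X p - X z2)
    (b2 := X p * (h - Y z2) - X z2 * (h - Y p)) (by linarith [hl.1]) (by linarith [hl.2])
    (fun hh => hr ⟨by linarith [hh.1], by linarith [hh.2]⟩)
  rcases ht with ⟨e1, e2⟩ | ⟨e1, e2⟩
  · left
    have eX : (1 - t) * X z1 + t * X z2 = X p := by linear_combination -e1
    have h3 : 0 ≤ X p * (Y p - ((1 - t) * Y z1 + t * Y z2)) := by
      have : X p * (Y p - ((1 - t) * Y z1 + t * Y z2))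
          = (1 - t) * (X p * (h - Y z1) - X z1 * (h - Y p))
            + t * (X p * (h - Y z2) - X z2 * (h - Y p)) := by
        linear_combination (h - Y p) * eX
      rw [this]; exact e2
    have h4 : (1 - t) * Y z1 + t * Y z2 ≤ Y p := by
      by_contra hh
      push Not at hh
      nlinarith [mul_pos hx (sub_pos.2 hh)]
    have h5 : (1 - t) * Y z1 + t * Y z2 < Y p := by
      refine lt_of_le_of_ne h4 fun h6 => ?_
      exact hd.vtx z1 z2 p hz h1.symm h2.symm t ht0.le ht1 eX.symm h6.symm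
    have ht1' : t < 1 := by
      refine lt_of_le_of_ne ht1 fun h6 => ?_
      subst h6
      have h7 : X z2 = X p := by linarith
      have h8 : Y z2 < Y p := by linarith
      have h9 : 0 < Y p - Y p' := by linarith
      refine hd.vtx p p' z2 hc.pp' h2 ?_ ((Y p - Y z2) / (Y p - Y p'))
        (div_nonneg (by linarith) h9.le) ((div_le_one h9).2 (by linarith)) ?_ ?_
      · rintro rfl; linarith
      · rw [hc.Xp', h7]; ring
      · field_simp; ring
    have h6 : 0 < (1 - t) * Y z1 + t * Y z2 := by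
      have a1 : 0 < (1 - t) * Y z1 := mul_pos (by linarith) hY1
      have a2 : 0 ≤ t * Y z2 := mul_nonneg ht0.le hY2
      linarith
    have h9 : 0 < Y p - Y p' := by linarith
    have h7 := hd.crs z1 z2 p p' hz hc.pp' (fun hh => by
        rcases Sym2.eq_iff.1 hh with hh | hh
        · exact h1 hh.1
        · exact h2 hh.2) t ((Y p - ((1 - t) * Y z1 + t * Y z2)) / (Y p - Y p')) ht0 ht1'
      (div_pos (by linarith) h9) ((div_lt_one h9).2 (by linarith))
      (by rw [hc.Xp', eX]; ring) (by field_simp; ring)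
    rw [hc.Xp'] at h7
    have h8 : F * (Y p - Y p') * (Y z2 - Y z1) = 0 := by linarith
    have h10 : Y z2 - Y z1 = 0 := (mul_eq_zero.1 h8).resolve_left (mul_pos hF h9).ne'
    have h11 : Y z1 = Y z2 := by linarith
    refine ⟨?_, h11, ?_⟩
    · by_contra hh
      push Not at hh
      nlinarith [hl.1, mul_nonneg ht0.le (sub_nonneg.2 hh)]
    · rw [h11] at h5
      linarith
  · right
    have eY : X p * (h - ((1 - t) * Y z1 + t * Y z2)) = ((1 - t) * X z1 + t * X z2) * (h - Y p) := by
      linear_combination e1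
    have h3 : (1 - t) * X z1 + t * X z2 ≤ X p := by linarith
    have h4 : 0 < (1 - t) * X z1 + t * X z2 := by
      have a1 : 0 ≤ (1 - t) * X z1 := mul_nonneg (by linarith) hX1.le
      have a2 : 0 < t * X z2 := mul_pos ht0 hX2
      linarith
    have h5 : (1 - t) * X z1 + t * X z2 < X p := by
      refine lt_of_le_of_ne h3 fun h6 => ?_
      rw [h6] at eY
      have h7 := mul_left_cancel₀ hx.ne' eY
      exact hd.vtx z1 z2 p hz h1.symm h2.symm t ht0.le ht1 h6.symm (by linarith)
    have ht1' : t < 1 := by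
      refine lt_of_le_of_ne ht1 fun h6 => ?_
      subst h6
      have h7 : X z2 < X p := by linarith
      have h8 : X p * (h - Y z2) = X z2 * (h - Y p) := by linear_combination eY
      refine hd.vtx w p z2 hc.wp ?_ h2 (X z2 / X p) (by positivity)
        ((div_le_one hx).2 h7.le) ?_ ?_
      · rintro rfl; rw [hc.Xw] at hX2; exact lt_irrefl _ hX2
      · rw [hc.Xw]; field_simp; ring
      · rw [hc.Yw]; field_simp; linear_combination -h8
    have h7 := hd.crs z1 z2 w p hz hc.wp (fun hh => by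
        rcases Sym2.eq_iff.1 hh with hh | hh
        · exact h2 hh.2
        · exact h1 hh.1) t (((1 - t) * X z1 + t * X z2) / X p) ht0 ht1'
      (div_pos h4 hx) ((div_lt_one hx).2 h5)
      (by rw [hc.Xw]; field_simp; ring) (by rw [hc.Yw]; field_simp; linear_combination -eY)
    rw [hc.Xw, hc.Yw] at h7
    have h8 : E * X p * (X z2 - X z1) = F * (h - Y p) * (Y z2 - Y z1) := by
      linear_combination h7
    have h9 : 0 < X p * (Y z2 - Y z1) + (h - Y p) * (X z2 - X z1) := by
      have a1 := hl.2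
      have a2 : t * (X p * (Y z2 - Y z1) + (h - Y p) * (X z2 - X z1))
          = X p * (h - Y z1) - X z1 * (h - Y p) := by linear_combination -eY
      by_contra hh
      push Not at hh
      nlinarith [mul_nonneg ht0.le (neg_nonneg.2 hh)]
    have h10 : 0 < Y z2 - Y z1 := by
      by_contra hh
      push Not at hh
      have a1 : F * (h - Y p) * (Y z2 - Y z1) ≤ 0 :=
        mul_nonpos_of_nonneg_of_nonpos (mul_pos hF hyh).le hh
      have a2 : X z2 - X z1 ≤ 0 := by
        by_contra h11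
        push Not at h11
        have := mul_pos (mul_pos hE hx) h11
        linarith
      have a3 := mul_nonpos_of_nonneg_of_nonpos hx.le hh
      have a4 := mul_nonpos_of_nonneg_of_nonpos hyh.le a2
      linarith
    have h11 : 0 < X z2 - X z1 := by
      have a1 : 0 < F * (h - Y p) * (Y z2 - Y z1) := mul_pos (mul_pos hF hyh) h10
      rw [← h8] at a1
      exact (pos_iff_pos_of_mul_pos a1).1 (mul_pos hE hx)
    refine ⟨by linarith, by linarith, ?_, h8⟩
    have h12 : Y p < (1 - t) * Y z1 + t * Y z2 := by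
      have a1 : ((1 - t) * X z1 + t * X z2) * (h - Y p) < X p * (h - Y p) :=
        mul_lt_mul_of_pos_right h5 hyh
      rw [← eY] at a1
      have a2 := lt_of_mul_lt_mul_left a1 hx.le
      linarith
    have h13 : (1 - t) * Y z1 + t * Y z2 = Y z2 - (1 - t) * (Y z2 - Y z1) := by ring
    have h14 : 0 < (1 - t) * (Y z2 - Y z1) := mul_pos (by linarith) h10
    linarith

/-- a right vertex has at most one left neighbour -/
theorem CN.one_left (hd : ADraw H X Y E F) (hc : CN H X Y h w p p') {b a c : V}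
    (hba : H.Adj a b) (hbc : H.Adj c b) (hac : a ≠ c) (ha : a ≠ p) (hb : b ≠ p) (hcp : c ≠ p)
    (hXa : 0 < X a) (hYa : 0 < Y a) (hXb : 0 < X b) (hYb : 0 ≤ Y b) (hXc : 0 < X c)
    (hYc : 0 < Y c) (la : Lf X Y h p a) (lc : Lf X Y h p c) (rb : ¬ Lf X Y h p b) : False := by
  have hE := hd.E_pos
  have hF := hd.F_pos
  have hx := hc.X_pos
  have hyh : 0 < h - Y p := by linarith [hc.Y_lt]
  rcases hc.cross hd hba ha hb hXa hYa hXb hYb la rb with ⟨a1, a2, a3⟩ | ⟨a1, a2, a3, a4⟩
  · rcases hc.cross hd hbc hcp hb hXc hYc hXb hYb lc rb with ⟨b1, b2, b3⟩ | ⟨b1, b2, b3, b4⟩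
    · refine no_ray hd hba.symm hbc.symm hac (k := (X b - X c) / (X b - X a))
        (div_pos (by linarith) (by linarith)) ?_ ?_
      · have : X b - X a ≠ 0 := by linarith
        field_simp; ring
      · rw [a2, b2]; ring
    · linarith
  · rcases hc.cross hd hbc hcp hb hXc hYc hXb hYb lc rb with ⟨b1, b2, b3⟩ | ⟨b1, b2, b3, b4⟩
    · linarith
    · refine no_ray hd hba.symm hbc.symm hac (k := (Y b - Y c) / (Y b - Y a))
        (div_pos (by linarith) (by linarith)) ?_ ?_
      · have h1 : Y b - Y a ≠ 0 := by linarith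
        have h2 : E * X p ≠ 0 := (mul_pos hE hx).ne'
        have h3 : (E * X p) * ((X c - X b) * (Y b - Y a)) = (E * X p) * ((Y b - Y c) * (X a - X b)) := by
          linear_combination (-(Y b - Y a)) * b4 + (Y b - Y c) * a4
        have h4 := mul_left_cancel₀ h2 h3
        rw [div_mul_eq_mul_div, eq_div_iff h1, h4]
      · have h1 : Y b - Y a ≠ 0 := by linarith
        field_simp; ring

/-- two right neighbours of a left vertex of the same type coincide -/
theorem CN.typ (hd : ADraw H X Y E F) (hc : CN H X Y h w p p') {a b c : V}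
    (hab : H.Adj a b) (hac : H.Adj a c) (hbc : b ≠ c)
    (h1 : (X a < X b ∧ Y a = Y b ∧ Y b < Y p) ∧ (X a < X c ∧ Y a = Y c ∧ Y c < Y p) ∨
      (X a < X b ∧ Y a < Y b ∧ Y p < Y b ∧ E * X p * (X b - X a) = F * (h - Y p) * (Y b - Y a)) ∧
      (X a < X c ∧ Y a < Y c ∧ Y p < Y c ∧
        E * X p * (X c - X a) = F * (h - Y p) * (Y c - Y a))) : False := by
  have hE := hd.E_pos
  have hx := hc.X_pos
  rcases h1 with ⟨⟨a1, a2, a3⟩, ⟨b1, b2, b3⟩⟩ | ⟨⟨a1, a2, a3, a4⟩, ⟨b1, b2, b3, b4⟩⟩
  · refine no_ray hd hab hac hbc (k := (X c - X a) / (X b - X a))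
      (div_pos (by linarith) (by linarith)) ?_ ?_
    · have : X b - X a ≠ 0 := by linarith
      field_simp
    · rw [← a2, ← b2]; ring
  · refine no_ray hd hab hac hbc (k := (Y c - Y a) / (Y b - Y a))
      (div_pos (by linarith) (by linarith)) ?_ ?_
    · have h1 : Y b - Y a ≠ 0 := by linarith
      have h2 : E * X p ≠ 0 := (mul_pos hE hx).ne'
      have h3 : (E * X p) * ((X c - X a) * (Y b - Y a)) = (E * X p) * ((Y c - Y a) * (X b - X a)) := by
        linear_combination (Y b - Y a) * b4 - (Y c - Y a) * a4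
      have h4 := mul_left_cancel₀ h2 h3
      rw [div_mul_eq_mul_div, eq_div_iff h1, h4]
    · have h1 : Y b - Y a ≠ 0 := by linarith
      field_simp

/-- the four vertices of a `K4` lie on the same side -/
theorem CN.K4 (hd : ADraw H X Y E F) (hc : CN H X Y h w p p') {a b c d : V}
    (ab : H.Adj a b) (ac : H.Adj a c) (ad : H.Adj a d) (bc : H.Adj b c) (bd : H.Adj b d)
    (cd : H.Adj c d) (hap : a ≠ p) (hbp : b ≠ p) (hcp : c ≠ p) (hdp : d ≠ p)
    (ha : 0 < X a ∧ 0 < Y a) (hb : 0 < X b ∧ 0 < Y b) (hc' : 0 < X c ∧ 0 < Y c)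
    (hd' : 0 < X d ∧ 0 < Y d) (la : Lf X Y h p a) : Lf X Y h p b := by
  by_contra rb
  by_cases lc : Lf X Y h p c
  · exact hc.one_left hd ab bc.symm ac.ne hap hbp hcp ha.1 ha.2 hb.1 hb.2.le hc'.1 hc'.2 la lc rb
  by_cases ld : Lf X Y h p d
  · exact hc.one_left hd ab bd.symm ad.ne hap hbp hdp ha.1 ha.2 hb.1 hb.2.le hd'.1 hd'.2 la ld rb
  have tb := hc.cross hd ab hap hbp ha.1 ha.2 hb.1 hb.2.le la rb
  have tc := hc.cross hd ac hap hcp ha.1 ha.2 hc'.1 hc'.2.le la lc
  have td := hc.cross hd ad hap hdp ha.1 ha.2 hd'.1 hd'.2.le la ld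
  rcases tb with tb | tb <;> rcases tc with tc | tc <;> rcases td with td | td
  · exact hc.typ hd ab ac bc.ne (Or.inl ⟨tb, tc⟩)
  · exact hc.typ hd ab ac bc.ne (Or.inl ⟨tb, tc⟩)
  · exact hc.typ hd ab ad bd.ne (Or.inl ⟨tb, td⟩)
  · exact hc.typ hd ac ad cd.ne (Or.inr ⟨tc, td⟩)
  · exact hc.typ hd ac ad cd.ne (Or.inl ⟨tc, td⟩)
  · exact hc.typ hd ab ad bd.ne (Or.inr ⟨tb, td⟩)
  · exact hc.typ hd ab ac bc.ne (Or.inr ⟨tb, tc⟩)
  · exact hc.typ hd ab ac bc.ne (Or.inr ⟨tb, tc⟩)

/-- another chain has its vertex on the left if and only if its abscissa is smaller -/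
theorem CN.lf_iff (hd : ADraw H X Y E F) (hc : CN H X Y h w p p') {q q' : V}
    (hq : CN H X Y h w q q') (hqp : q ≠ p) :
    (Lf X Y h p q ↔ X q < X p) ∧ X q ≠ X p := by
  have hF := hd.F_pos
  have hx := hc.X_pos
  have hy := hc.Y_pos
  have hyh : 0 < h - Y p := by linarith [hc.Y_lt]
  have hYp' := hc.Yp'
  have hXq := hq.X_pos
  have hYq := hq.Y_pos
  have hYq' := hq.Yp'
  have h2 : X q ≠ X p := by
    intro h3
    rcases le_or_gt (Y p) (Y q) with h4 | h4
    · have h9 : 0 < Y q - Y q' := by linarith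
      refine hd.vtx q q' p hq.pp' hqp.symm ?_ ((Y q - Y p) / (Y q - Y q'))
        (div_nonneg (by linarith) h9.le) ((div_le_one h9).2 (by linarith)) ?_ ?_
      · rintro rfl; linarith
      · rw [hq.Xp', h3]; ring
      · field_simp; ring
    · have h9 : 0 < Y p - Y p' := by linarith
      refine hd.vtx p p' q hc.pp' hqp ?_ ((Y p - Y q) / (Y p - Y p'))
        (div_nonneg (by linarith) h9.le) ((div_le_one h9).2 (by linarith)) ?_ ?_
      · rintro rfl; linarith
      · rw [hc.Xp', h3]; ring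
      · field_simp; ring
  refine ⟨⟨fun h1 => h1.1, fun h1 => ⟨h1, ?_⟩⟩, h2⟩
  by_contra h3
  push Not at h3
  have h4 : 0 < X q * (h - Y p) := mul_pos hXq hyh
  have h5 : X q * (h - Y p) < X p * (h - Y p) := mul_lt_mul_of_pos_right h1 hyh
  have hwX : w ≠ q := by
    rintro rfl; rw [hc.Xw] at hXq; exact lt_irrefl _ hXq
  have hwX' : w ≠ q' := by
    rintro rfl
    have := hq.Xp'
    rw [hc.Xw] at this
    linarith
  -- the height of the segment `w p` over `X q`
  have h6 : X p * (h - (h - X q * (h - Y p) / X p)) = X q * (h - Y p) := by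
    field_simp; ring
  rcases h3.lt_or_eq with h7 | h7
  · have h8 : h - X q * (h - Y p) / X p < Y q := by
      have : X p * (h - Y q) < X p * (h - (h - X q * (h - Y p) / X p)) := by linarith
      have := lt_of_mul_lt_mul_left this hx.le
      linarith
    have h8' : 0 < h - X q * (h - Y p) / X p := by
      have : X p * (h - (h - X q * (h - Y p) / X p)) < X p * (h - Y p) := by linarith
      have := lt_of_mul_lt_mul_left this hx.le
      linarith
    have h9 : 0 < Y q - Y q' := by linarith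
    have h10 := hd.crs w p q q' hc.wp hq.pp' (ne_of_left hwX hwX') (X q / X p)
      ((Y q - (h - X q * (h - Y p) / X p)) / (Y q - Y q')) (by positivity)
      ((div_lt_one hx).2 h1) (div_pos (by linarith) h9) ((div_lt_one h9).2 (by linarith))
      (by rw [hc.Xw, hq.Xp']; field_simp; ring)
      (by
        have e1 : (1 - (Y q - (h - X q * (h - Y p) / X p)) / (Y q - Y q')) * Y q +
            (Y q - (h - X q * (h - Y p) / X p)) / (Y q - Y q') * Y q'
            = h - X q * (h - Y p) / X p := by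
          field_simp; ring
        rw [e1, hc.Yw]; field_simp; ring)
    rw [hc.Xw, hc.Yw, hq.Xp'] at h10
    have h11 : F * ((h - Y p) * (Y q - Y q')) = 0 := by linear_combination h10
    have h12 := mul_pos hF (mul_pos hyh h9)
    linarith
  · refine hd.vtx w p q hc.wp hwX.symm hqp (X q / X p) (by positivity)
      ((div_le_one hx).2 h1.le) ?_ ?_
    · rw [hc.Xw]; field_simp; ring
    · rw [hc.Yw]; field_simp; linear_combination -h7

end

/-- the vertices `P j` are ordered by their abscissas -/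
theorem chain_mono {H : SimpleGraph V} {X Y : V → ℝ} {E F h e : ℝ} (hd : ADraw H X Y E F)
    {w u : V} {n : ℕ} {P P' : ℕ → V} {C : ℕ → Bool → V}
    (hw : X w = 0) (hw' : Y w = h) (hu : X u = e) (hu' : Y u = 0)
    (hP : ∀ j < n, 0 < X (P j) ∧ X (P j) < e ∧ 0 < Y (P j) ∧ Y (P j) < h)
    (hC : ∀ j ε, j + 1 < n → 0 < X (C j ε) ∧ 0 < Y (C j ε) ∧ Y (C j ε) < h)
    (hP' : ∀ j < n, X (P' j) = X (P j) ∧ Y (P' j) < 0)
    (wP : ∀ j < n, H.Adj w (P j)) (PP' : ∀ j < n, H.Adj (P j) (P' j))
    (pp : ∀ j, j + 1 < n → H.Adj (P j) (P (j + 1)))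
    (pc : ∀ j ε, j + 1 < n → H.Adj (P j) (C j ε))
    (pc' : ∀ j ε, j + 1 < n → H.Adj (P (j + 1)) (C j ε))
    (cc : ∀ j, j + 1 < n → H.Adj (C j false) (C j true))
    (uP : H.Adj u (P (n - 1)))
    (inj : ∀ i < n, ∀ j < n, P i = P j → i = j)
    (hne : ∀ j ε m, j + 1 < n → m < n → C j ε ≠ P m) :
    ∀ j, j + 1 < n → X (P j) < X (P (j + 1)) := by
  have hcn : ∀ j, j < n → CN H X Y h w (P j) (P' j) := fun j hj =>
    { Xw := hw
      Yw := hw'
      X_pos := (hP j hj).1
      Y_pos := (hP j hj).2.2.1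
      Y_lt := (hP j hj).2.2.2
      Xp' := (hP' j hj).1
      Yp' := (hP' j hj).2
      wp := wP j hj
      pp' := PP' j hj }
  have hneP : ∀ i < n, ∀ j < n, i ≠ j → P i ≠ P j := fun i hi j hj hij h1 => hij (inj i hi j hj h1)
  -- step (4)
  have h4 : ∀ m < n, ∀ j < n, j ≠ m →
      (Lf X Y h (P m) (P j) ↔ X (P j) < X (P m)) ∧ X (P j) ≠ X (P m) := fun m hm j hj hjm =>
    (hcn m hm).lf_iff hd (hcn j hj) (hneP j hj m hm hjm)
  -- step (3)
  have h3 : ∀ m < n, ∀ j, j + 1 < n → m ≠ j → m ≠ j + 1 →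
      (Lf X Y h (P m) (P j) ↔ Lf X Y h (P m) (P (j + 1))) := by
    intro m hm j hj hmj hmj'
    have hj' : j < n := by omega
    have hPj : 0 < X (P j) ∧ 0 < Y (P j) := ⟨(hP j hj').1, (hP j hj').2.2.1⟩
    have hPj' : 0 < X (P (j + 1)) ∧ 0 < Y (P (j + 1)) := ⟨(hP (j + 1) hj).1, (hP (j + 1) hj).2.2.1⟩
    have hCf : 0 < X (C j false) ∧ 0 < Y (C j false) := ⟨(hC j false hj).1, (hC j false hj).2.1⟩
    have hCt : 0 < X (C j true) ∧ 0 < Y (C j true) := ⟨(hC j true hj).1, (hC j true hj).2.1⟩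
    constructor
    · exact (hcn m hm).K4 hd (pp j hj) (pc j false hj) (pc j true hj) (pc' j false hj)
        (pc' j true hj) (cc j hj) (hneP j hj' m hm hmj.symm) (hneP (j + 1) hj m hm hmj'.symm)
        (hne j false m hj hm) (hne j true m hj hm) hPj hPj' hCf hCt
    · exact (hcn m hm).K4 hd (pp j hj).symm (pc' j false hj) (pc' j true hj) (pc j false hj)
        (pc j true hj) (cc j hj) (hneP (j + 1) hj m hm hmj'.symm) (hneP j hj' m hm hmj.symm)
        (hne j false m hj hm) (hne j true m hj hm) hPj' hPj hCf hCt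
  -- step (5)
  have h5 : ∀ m, m + 1 < n → X (P m) < X (P (n - 1)) := by
    intro m hm
    have hm' : m < n := by omega
    have hn' : n - 1 < n := by omega
    have h6 := h4 m hm' (n - 1) hn' (by omega)
    by_contra h7
    push Not at h7
    have h8 : Lf X Y h (P m) (P (n - 1)) := h6.1.2 (lt_of_le_of_ne h7 h6.2)
    have hr : ¬ Lf X Y h (P m) u := fun h9 => by
      have := h9.1
      rw [hu] at this
      linarith [(hP m hm').2.1]
    have hup : u ≠ P m := by
      rintro rfl
      have := (hP m hm').2.2.1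
      linarith
    have hYP := (hP (n - 1) hn').2.2.1
    have hYm := (hP m hm').2.2.1
    rcases (hcn m hm').cross hd uP.symm (hneP (n - 1) hn' m hm' (by omega)) hup
      (hP (n - 1) hn').1 hYP (by rw [hu]; linarith [(hP m hm').1, (hP m hm').2.1])
      hu'.ge h8 hr with ⟨-, a2, -⟩ | ⟨-, -, a3, -⟩
    · rw [hu'] at a2; linarith
    · rw [hu'] at a3; linarith
  -- downward induction
  have key : ∀ k j, j + 1 < n → n - (j + 2) = k → X (P j) < X (P (j + 1)) := by
    intro k
    induction k with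
    | zero =>
      intro j hj hk
      have h6 := h5 j hj
      have h7 : n - 1 = j + 1 := by omega
      rw [h7] at h6
      exact h6
    | succ k ih =>
      intro j hj hk
      have hj2 : j + 1 + 1 < n := by omega
      have hj0 : j < n := by omega
      have ih' := ih (j + 1) hj2 (by omega)
      have a1 := (h4 (j + 1 + 1) hj2 (j + 1) hj (by omega)).1.2 ih'
      have a2 := (h3 (j + 1 + 1) hj2 j hj (by omega) (by omega)).2 a1
      have a3 : X (P j) < X (P (j + 1 + 1)) := a2.1
      have a4 : ¬ Lf X Y h (P j) (P (j + 1 + 1)) := fun h6 => by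
        have := h6.1
        linarith
      have a5 : ¬ Lf X Y h (P j) (P (j + 1)) := fun h6 =>
        a4 ((h3 j hj0 (j + 1) hj2 (by omega) (by omega)).1 h6)
      have a6 := h4 j hj0 (j + 1) hj (by omega)
      by_contra h7
      push Not at h7
      exact a5 (a6.1.2 (lt_of_le_of_ne h7 a6.2))
  intro j hj
  exact key _ j hj rfl

end Pool.Agent.Helper82.DG
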