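import Pool.Agent.Helper72.DG.Linear

/-!
# Dark grids, G2: counting the edges
-/

set_option autoImplicit false

namespace Pool.Agent.Helper82.DG

open Pool.Agent.Helper18.RAC Complex

variable {V : Type*}

/-- with `rac_edges_in` of Helper72/DG/Linear.lean -/
theorem count_le [Finite V] {H : SimpleGraph V} {f : V → ℂ} (hf : IsRAC H f) (Dk Z : Finset V)
    (hcov : ∀ v, v ∈ Dk ∨ v ∈ Z) (L : Set (Sym2 V)) (R : V → Set ℂ)
    (hmem : ∀ x ∈ Dk, f x ∈ R x)
    (hnbr : ∀ x ∈ Dk, ∀ v, H.Adj x v → s(x, v) ∈ L ∨ f v ∈ R x)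
    (hdj : ∀ x ∈ Dk, ∀ y ∈ Dk, x ≠ y → Disjoint (R x) (R y)) :
    H.edgeSet.ncard ≤ L.ncard + 7 * Z.card := by
  classical
  have huniq : ∀ x ∈ Dk, ∀ y ∈ Dk, ∀ z : ℂ, z ∈ R x → z ∈ R y → x = y := by
    intro x hx y hy z h1 h2
    by_contra hne
    exact Set.disjoint_left.1 (hdj x hx y hy hne) h1 h2
  obtain ⟨φ, hφ⟩ : ∃ φ : V → V, ∀ z x, x ∈ Dk → f z ∈ R x → φ z = x := by
    refine ⟨fun z => if h : ∃ x, x ∈ Dk ∧ f z ∈ R x then h.choose else z, ?_⟩
    intro z x hx hz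
    have h : ∃ x, x ∈ Dk ∧ f z ∈ R x := ⟨x, hx, hz⟩
    have h1 : (if h : ∃ x, x ∈ Dk ∧ f z ∈ R x then h.choose else z) = h.choose := dif_pos h
    change (if h : ∃ x, x ∈ Dk ∧ f z ∈ R x then h.choose else z) = x
    rw [h1]
    exact huniq _ h.choose_spec.1 _ hx _ h.choose_spec.2 hz
  -- an edge from a dark vertex
  have hdark : ∀ x ∈ Dk, ∀ v, H.Adj x v → s(x, v) ∈ L ∨ (v ∈ Z ∧ s(x, v) = s(φ v, v)) := by
    intro x hx v hxv
    rcases hnbr x hx v hxv with h1 | h1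
    · exact Or.inl h1
    · right
      have h2 : v ∉ Dk := fun hv => hxv.ne (huniq x hx v hv (f v) h1 (hmem v hv))
      exact ⟨(hcov v).resolve_left h2, by rw [hφ v x hx h1]⟩
  have hsub : H.edgeSet ⊆ L ∪ ({e | e ∈ H.edgeSet ∧ ∀ v ∈ e, v ∈ Z} ∪
      (fun z => s(φ z, z)) '' (Z : Set V)) := by
    intro e
    induction e with
    | _ u v =>
      intro he
      have huv : H.Adj u v := he
      by_cases hu : u ∈ Dk
      · rcases hdark u hu v huv with h1 | ⟨h1, h2⟩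
        · exact Or.inl h1
        · exact Or.inr (Or.inr ⟨v, h1, h2.symm⟩)
      · by_cases hv : v ∈ Dk
        · rcases hdark v hv u huv.symm with h1 | ⟨h1, h2⟩
          · left
            rwa [Sym2.eq_swap] at h1
          · refine Or.inr (Or.inr ⟨u, h1, ?_⟩)
            change s(φ u, u) = s(u, v)
            rw [← h2, Sym2.eq_swap]
        · refine Or.inr (Or.inl ⟨he, ?_⟩)
          intro w hw
          rcases Sym2.mem_iff.1 hw with rfl | rfl
          · exact (hcov w).resolve_left hu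
          · exact (hcov w).resolve_left hv
  have h1 := Set.ncard_le_ncard hsub (Set.toFinite _)
  have h2 := Set.ncard_union_le L ({e | e ∈ H.edgeSet ∧ ∀ v ∈ e, v ∈ Z} ∪
      (fun z => s(φ z, z)) '' (Z : Set V))
  have h3 := Set.ncard_union_le {e | e ∈ H.edgeSet ∧ ∀ v ∈ e, v ∈ Z}
      ((fun z => s(φ z, z)) '' (Z : Set V))
  have h4 := rac_edges_in hf Z
  have h5 : ((fun z => s(φ z, z)) '' (Z : Set V)).ncard ≤ Z.card := by
    refine le_trans (Set.ncard_image_le (Set.toFinite _)) ?_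
    rw [Set.ncard_coe_finset]
  omega

end Pool.Agent.Helper82.DG
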