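import Pool.Agent.Helper82.DG.Part3

/-!
# Dark grids: the layout exists
-/

set_option autoImplicit false

namespace Pool.Agent.Helper82.DG

open Pool.Agent.Helper18.RAC Complex

/-- the type of the names used in a grid of order `M` -/
abbrev GT (M : ℕ) : Type :=
  (Bool × Fin (2 * M)) ⊕ ((Bool × Fin M) ⊕ ((Bool × (Fin (2 * M - 1) × Bool)) ⊕
    (Unit ⊕ (Fin M × Fin M))))

/-- the name -/
def GT.name {M : ℕ} : GT M → GN
  | .inl (σ, j) => .P σ j
  | .inr (.inl (σ, c)) => .U σ c
  | .inr (.inr (.inl (σ, j, ε))) => .C σ j ε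
  | .inr (.inr (.inr (.inl _))) => .Q
  | .inr (.inr (.inr (.inr (c, r)))) => .D c r

theorem GT.name_inj {M : ℕ} : Function.Injective (GT.name (M := M)) := by
  rintro (⟨σ, j⟩ | ⟨σ, c⟩ | ⟨σ, j, ε⟩ | ⟨⟩ | ⟨c, r⟩) (⟨σ', j'⟩ | ⟨σ', c'⟩ | ⟨σ', j', ε'⟩ | ⟨⟩ | ⟨c', r'⟩) h
  all_goals first
    | rfl
    | (exfalso; simp only [GT.name] at h; cases h)
    | (simp only [GT.name, GN.P.injEq, GN.U.injEq, GN.C.injEq, GN.D.injEq, Fin.val_inj] at h
       simp [h])

theorem GT.exists_name {M : ℕ} (x : GN) (hx : x.ok M) : ∃ g : GT M, GT.name g = x := by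
  cases x with
  | P σ j => exact ⟨.inl (σ, ⟨j, hx⟩), rfl⟩
  | U σ c => exact ⟨.inr (.inl (σ, ⟨c, hx⟩)), rfl⟩
  | C σ j ε => exact ⟨.inr (.inr (.inl (σ, ⟨j, by have : j + 1 < 2 * M := hx; omega⟩, ε))), rfl⟩
  | Q => exact ⟨.inr (.inr (.inr (.inl ()))), rfl⟩
  | D c r => exact ⟨.inr (.inr (.inr (.inr (⟨c, hx.1⟩, ⟨r, hx.2⟩)))), rfl⟩

theorem GT.name_ok {M : ℕ} (g : GT M) : (GT.name g).ok M := by
  rcases g with ⟨σ, j⟩ | ⟨σ, c⟩ | ⟨σ, j, ε⟩ | ⟨⟩ | ⟨c, r⟩
  · exact j.2
  · exact c.2
  · have := j.2
    change (j : ℕ) + 1 < 2 * M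
    omega
  · trivial
  · exact ⟨c.2, r.2⟩

theorem GT.card (M : ℕ) (hM : 5 ≤ M) : Fintype.card (GT M) = M ^ 2 + 14 * M - 3 := by
  simp only [GT, Fintype.card_sum, Fintype.card_prod, Fintype.card_fin, Fintype.card_bool,
    Fintype.card_unit]
  obtain ⟨k, rfl⟩ : ∃ k, M = k + 1 := ⟨M - 1, by omega⟩
  have h1 : 2 * (k + 1) - 1 = 2 * k + 1 := by omega
  have h2 : (k + 1) ^ 2 + 14 * (k + 1) - 3 = k ^ 2 + 16 * k + 12 := by
    have : (k + 1) ^ 2 + 14 * (k + 1) = (k ^ 2 + 16 * k + 12) + 3 := by ring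
    omega
  rw [h1, h2]
  ring

open Classical in
/-- the element with a given name -/
noncomputable def GT.dec (M : ℕ) (x : GN) : GT M :=
  if h : ∃ g : GT M, GT.name g = x then h.choose else .inr (.inr (.inr (.inl ())))

theorem GT.name_dec {M : ℕ} {x : GN} (hx : x.ok M) : GT.name (GT.dec M x) = x := by
  have h := GT.exists_name x hx
  rw [GT.dec, dif_pos h]
  exact h.choose_spec

theorem GT.dec_name {M : ℕ} (g : GT M) : GT.dec M (GT.name g) = g :=
  GT.name_inj (GT.name_dec (GT.name_ok g))

/-- the layout exists -/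
theorem exists_layD {n m K M : ℕ} (hm : K + 2 ≤ m) (hM : 5 ≤ M)
    (hn : 2 + m + K * (M ^ 2 + 14 * M - 3) = n) :
    ∃ (a b : Fin n) (p : ℕ → Fin n) (κ : ℕ → GX → Fin n), LayD a b p κ m K M := by
  classical
  have hm0 : 0 < m := by omega
  have hcard : Fintype.card (Bool ⊕ (Fin m ⊕ (Fin K × GT M))) = n := by
    rw [Fintype.card_sum, Fintype.card_sum, Fintype.card_prod, GT.card M hM, Fintype.card_bool,
      Fintype.card_fin, Fintype.card_fin, ← hn]
    ring
  let e : (Bool ⊕ (Fin m ⊕ (Fin K × GT M))) ≃ Fin n := Fintype.equivFinOfCardEq hcard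
  let a : Fin n := e (.inl true)
  let b : Fin n := e (.inl false)
  let p : ℕ → Fin n := fun j => e (.inr (.inl ⟨j % m, Nat.mod_lt _ hm0⟩))
  let w : ℕ → GN → Fin n := fun i x =>
    if h : i < K then e (.inr (.inr (⟨i, h⟩, GT.dec M x))) else a
  let κ : ℕ → GX → Fin n := fun i y =>
    match y with
    | .X false => if i % 2 = 0 then b else a
    | .X true => p (i + 2)
    | .Y false => p (i + 1)
    | .Y true => p i
    | .v x => w i x
  have hw : ∀ i (h : i < K) x, w i x = e (.inr (.inr (⟨i, h⟩, GT.dec M x))) := by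
    intro i h x
    change (if h : i < K then e (.inr (.inr (⟨i, h⟩, GT.dec M x))) else a) = _
    rw [dif_pos h]
  refine ⟨a, b, p, κ, ?_⟩
  exact
    { ab := by
        intro h
        have := e.injective h
        simp at this
      pa := by
        intro j hj h
        have := e.injective h
        simp at this
      pb := by
        intro j hj h
        have := e.injective h
        simp at this
      pinj := by
        intro i hi j hj h
        have h1 := e.injective h
        simp only [Sum.inr.injEq, Sum.inl.injEq, Fin.mk.injEq] at h1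
        rwa [Nat.mod_eq_of_lt hi, Nat.mod_eq_of_lt hj] at h1
      hm := hm
      hM := hM
      kN := fun i hi => rfl
      kE := fun i hi => rfl
      kW := fun i hi => rfl
      kS := fun i hi => rfl
      nc := by
        intro i hi x hx
        change w i x ≠ a ∧ w i x ≠ b ∧ ∀ j < m, w i x ≠ p j
        rw [hw i hi x]
        refine ⟨?_, ?_, ?_⟩
        · intro h
          have := e.injective h
          simp at this
        · intro h
          have := e.injective h
          simp at this
        · intro j hj h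
          have := e.injective h
          simp at this
      kinj := by
        intro i hi i' hi' x y hx hy h
        change w i x = w i' y at h
        rw [hw i hi x, hw i' hi' y] at h
        have h1 := e.injective h
        simp only [Sum.inr.injEq, Prod.mk.injEq, Fin.mk.injEq] at h1
        refine ⟨h1.1, ?_⟩
        rw [← GT.name_dec hx, ← GT.name_dec hy, h1.2]
      cov := by
        intro v
        obtain ⟨u, rfl⟩ := e.surjective v
        rcases u with (_ | _) | j | ⟨i, g⟩
        · exact Or.inr (Or.inl rfl)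
        · exact Or.inl rfl
        · refine Or.inr (Or.inr (Or.inl ⟨j, j.2, ?_⟩))
          change _ = e _
          congr 3
          exact Fin.ext (Nat.mod_eq_of_lt j.2).symm
        · refine Or.inr (Or.inr (Or.inr ⟨i, i.2, GT.name g, GT.name_ok g, ?_⟩))
          change _ = w i (GT.name g)
          rw [hw i i.2, GT.dec_name] }

end Pool.Agent.Helper82.DG
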