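import Pool.Agent.Helper82.DG.Part3
import Pool.Agent.Helper72.DG.Nbr

/-!
# Dark grids, F1 and F2: the rectangles of the dark vertices
-/

set_option autoImplicit false

namespace Pool.Agent.Helper82.DG

open Pool.Agent.Helper18.RAC Complex

variable {V : Type*}

theorem Fr.aX' {X Y : ℂ → ℝ} (h : Fr X Y) (z z' : ℂ) (s t : ℝ) (hst : s + t = 1) :
    X (s • z + t • z') = s * X z + t * X z' := by
  have hs : s = 1 - t := by linarith
  rw [hs]
  exact h.aX z z' t

theorem Fr.aY' {X Y : ℂ → ℝ} (h : Fr X Y) (z z' : ℂ) (s t : ℝ) (hst : s + t = 1) :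
    Y (s • z + t • z') = s * Y z + t * Y z' := by
  have hs : s = 1 - t := by linarith
  rw [hs]
  exact h.aY z z' t

/-- exchange of the coordinates -/
theorem Fr.swap {X Y : ℂ → ℝ} (h : Fr X Y) : Fr Y X :=
  ⟨h.cY, h.cX, h.aY, h.aX, fun z z' h1 h2 => h.inj z z' h2 h1⟩

/-- a point on a vertical segment -/
theorem Fr.mem_vert {X Y : ℂ → ℝ} (h : Fr X Y) {u v z : ℂ} (hu : X u = X z) (hv : X v = X z)
    (h1 : Y v < Y z) (h2 : Y z < Y u) : z ∈ openSegment ℝ u v := by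
  have h3 : 0 < Y u - Y v := by linarith
  refine ⟨1 - (Y u - Y z) / (Y u - Y v), (Y u - Y z) / (Y u - Y v), ?_, ?_, by ring, ?_⟩
  · rw [sub_pos, div_lt_one h3]; linarith
  · exact div_pos (by linarith) h3
  · refine h.inj _ _ ?_ ?_
    · rw [h.aX, hu, hv]; ring
    · rw [h.aY]; field_simp; ring

/-- an open rectangle -/
def box (X Y : ℂ → ℝ) (x1 x2 y1 y2 : ℝ) : Set ℂ := {z | x1 < X z ∧ X z < x2 ∧ y1 < Y z ∧ Y z < y2}

theorem box_open {X Y : ℂ → ℝ} (h : Fr X Y) (x1 x2 y1 y2 : ℝ) : IsOpen (box X Y x1 x2 y1 y2) :=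
  (isOpen_lt continuous_const h.cX).inter ((isOpen_lt h.cX continuous_const).inter
    ((isOpen_lt continuous_const h.cY).inter (isOpen_lt h.cY continuous_const)))

theorem lt_conv {x u v s t : ℝ} (hs : 0 ≤ s) (ht : 0 ≤ t) (hst : s + t = 1) (hu : x < u)
    (hv : x < v) : x < s * u + t * v := by
  have h1 : x = s * x + t * x := by rw [← add_mul, hst, one_mul]
  rcases hs.eq_or_lt with h2 | h2
  · have h3 : t = 1 := by linarith
    rw [← h2, h3]; linarith
  · have h4 := mul_lt_mul_of_pos_left hu h2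
    have h5 := mul_le_mul_of_nonneg_left hv.le ht
    linarith

theorem conv_lt {x u v s t : ℝ} (hs : 0 ≤ s) (ht : 0 ≤ t) (hst : s + t = 1) (hu : u < x)
    (hv : v < x) : s * u + t * v < x := by
  have h1 : x = s * x + t * x := by rw [← add_mul, hst, one_mul]
  rcases hs.eq_or_lt with h2 | h2
  · have h3 : t = 1 := by linarith
    rw [← h2, h3]; linarith
  · have h4 := mul_lt_mul_of_pos_left hu h2
    have h5 := mul_le_mul_of_nonneg_left hv.le ht
    linarith

theorem box_convex {X Y : ℂ → ℝ} (h : Fr X Y) (x1 x2 y1 y2 : ℝ) :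
    Convex ℝ (box X Y x1 x2 y1 y2) := by
  intro z hz z' hz' s t hs ht hst
  obtain ⟨a1, a2, a3, a4⟩ := hz
  obtain ⟨b1, b2, b3, b4⟩ := hz'
  change x1 < X (s • z + t • z') ∧ X (s • z + t • z') < x2 ∧ y1 < Y (s • z + t • z') ∧
    Y (s • z + t • z') < y2
  rw [h.aX' _ _ _ _ hst, h.aY' _ _ _ _ hst]
  exact ⟨lt_conv hs ht hst a1 b1, conv_lt hs ht hst a2 b2, lt_conv hs ht hst a3 b3,
    conv_lt hs ht hst a4 b4⟩

theorem box_frontier {X Y : ℂ → ℝ} (h : Fr X Y) {x1 x2 y1 y2 : ℝ} {z : ℂ}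
    (hz : z ∈ frontier (box X Y x1 x2 y1 y2)) :
    (x1 ≤ X z ∧ X z ≤ x2 ∧ y1 ≤ Y z ∧ Y z ≤ y2) ∧
      (X z = x1 ∨ X z = x2 ∨ Y z = y1 ∨ Y z = y2) := by
  rw [(box_open h x1 x2 y1 y2).frontier_eq] at hz
  obtain ⟨h1, h2⟩ := hz
  have h3 : box X Y x1 x2 y1 y2 ⊆ {z | x1 ≤ X z ∧ X z ≤ x2 ∧ y1 ≤ Y z ∧ Y z ≤ y2} :=
    fun w hw => ⟨hw.1.le, hw.2.1.le, hw.2.2.1.le, hw.2.2.2.le⟩
  have h4 : IsClosed {z | x1 ≤ X z ∧ X z ≤ x2 ∧ y1 ≤ Y z ∧ Y z ≤ y2} :=
    (isClosed_le continuous_const h.cX).inter ((isClosed_le h.cX continuous_const).inter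
      ((isClosed_le continuous_const h.cY).inter (isClosed_le h.cY continuous_const)))
  have h5 := closure_minimal h3 h4 h1
  refine ⟨h5, ?_⟩
  obtain ⟨a1, a2, a3, a4⟩ := h5
  by_contra hh
  push Not at hh
  obtain ⟨c1, c2, c3, c4⟩ := hh
  exact h2 ⟨lt_of_le_of_ne a1 (Ne.symm c1), lt_of_le_of_ne a2 c2,
    lt_of_le_of_ne a3 (Ne.symm c3), lt_of_le_of_ne a4 c4⟩

section

variable {H : SimpleGraph V} {X Y : V → ℝ} {E F a b : ℝ} {κ : GX → V} {M : ℕ} {i j : ℕ}

theorem GDraw.X_le (h : GDraw H X Y E F a b κ M) (hij : i ≤ j) (hj : j < 2 * M) :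
    X (κ (.v (.P false i))) ≤ X (κ (.v (.P false j))) := by
  rcases hij.eq_or_lt with h1 | h1
  · rw [h1]
  · exact (h.X_lt h1 hj).le

theorem GDraw.Y_le (h : GDraw H X Y E F a b κ M) (hij : i ≤ j) (hj : j < 2 * M) :
    Y (κ (.v (.P true i))) ≤ Y (κ (.v (.P true j))) := by
  rcases hij.eq_or_lt with h1 | h1
  · rw [h1]
  · exact (h.Y_lt h1 hj).le

end

/-- F1: the rectangles -/
theorem gdraw_rects {H : SimpleGraph V} {f : V → ℂ} {a b : V} {κ : GX → V} {M : ℕ}
    {X Y : ℂ → ℝ} {E F a' b' : ℝ} (_hf : IsRAC H f) (hfr : Fr X Y)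
    (h : GDraw H (fun v => X (f v)) (fun v => Y (f v)) E F a' b' κ M)
    (hcore : ∀ v y, (NE (fun v => X (f v)) (fun v => Y (f v)) v ∨
          SE (fun v => X (f v)) (fun v => Y (f v)) b' v ∨
          NW (fun v => X (f v)) (fun v => Y (f v)) a' v) →
        H.Adj v y → CoreH H a b y → Cor κ y) :
    ∃ ρ, Rects H f a b κ M ρ := by
  refine ⟨fun c r => box X Y (X (f (κ (.v (.P false (2 * c))))))
    (X (f (κ (.v (.P false (2 * c + 2)))))) (Y (f (κ (.v (.P true (2 * r))))))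
    (Y (f (κ (.v (.P true (2 * r + 2)))))), ?_, ?_, ?_, ?_, ?_, ?_, ?_⟩
  · exact fun c r => box_open hfr _ _ _ _
  · exact fun c r => box_convex hfr _ _ _ _
  · intro c r c' r' hc hr hc' hr' hne
    rw [Set.disjoint_left]
    rintro z ⟨a1, a2, a3, a4⟩ ⟨b1, b2, b3, b4⟩
    rcases hne with hne | hne
    · rcases lt_or_gt_of_ne hne with h1 | h1
      · have := h.X_le (i := 2 * c + 2) (j := 2 * c') (by omega) (by omega)
        linarith
      · have := h.X_le (i := 2 * c' + 2) (j := 2 * c) (by omega) (by omega)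
        linarith
    · rcases lt_or_gt_of_ne hne with h1 | h1
      · have := h.Y_le (i := 2 * r + 2) (j := 2 * r') (by omega) (by omega)
        linarith
      · have := h.Y_le (i := 2 * r' + 2) (j := 2 * r) (by omega) (by omega)
        linarith
  · intro c r hc hr
    obtain ⟨h1, h2⟩ := h.pos hc hr
    have a1 := h.X_lt (i := 2 * c) (j := 2 * c + 1) (by omega) (by omega)
    have a2 := h.X_lt (i := 2 * c + 1) (j := 2 * c + 2) (by omega) (by omega)
    have a3 := h.Y_lt (i := 2 * r) (j := 2 * r + 1) (by omega) (by omega)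
    have a4 := h.Y_lt (i := 2 * r + 1) (j := 2 * r + 2) (by omega) (by omega)
    refine ⟨?_, ?_, ?_, ?_⟩
    · rw [h1]; exact a1
    · rw [h1]; exact a2
    · rw [h2]; exact a3
    · rw [h2]; exact a4
  · intro c r v hc0 hc hr0 hr hv
    rcases h.nbr hc0 hc hr0 hr hv with e | e | e | e | e
    · exact Or.inl e
    · exact Or.inr (Or.inl e)
    · exact Or.inr (Or.inr (Or.inl e))
    · exact Or.inr (Or.inr (Or.inr (Or.inl e)))
    · exact Or.inr (Or.inr (Or.inr (Or.inr e)))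
  · intro c r z hc hr hz
    obtain ⟨⟨a1, a2, a3, a4⟩, hz'⟩ := box_frontier hfr hz
    have hx : ∀ k, k = c ∨ k = c + 1 → X z = X (f (κ (.v (.P false (2 * k))))) →
        z ∈ openSegment ℝ (f (κ (.v (.U false k)))) (f (κ (.v (.P false (2 * k))))) := by
      intro k hk hX
      have hkM : k < M := by omega
      have e1 := h.X_U hkM
      have e2 := (h.cross hkM hr).2
      have e3 := h.Y_U hr
      have e4 := (h.hP0 (2 * k) (by omega)).2.1
      have e5 := (h.hP1 (2 * r) (by omega)).1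
      dsimp only at e1 e2 e3 e4 e5
      have e6 : 2 * (r + 1) = 2 * r + 2 := by ring
      rw [e6] at e3
      exact hfr.mem_vert (e1.trans hX.symm) hX.symm (by linarith) (by linarith)
    have hy : ∀ k, k = r ∨ k = r + 1 → Y z = Y (f (κ (.v (.P true (2 * k))))) →
        z ∈ openSegment ℝ (f (κ (.v (.U true k)))) (f (κ (.v (.P true (2 * k))))) := by
      intro k hk hY
      have hkM : k < M := by omega
      have e1 := h.Y_U hkM
      have e2 := (h.cross hc hkM).1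
      have e3 := h.X_U hc
      have e4 := (h.hP1 (2 * k) (by omega)).2.1
      have e5 := (h.hP0 (2 * c) (by omega)).1
      dsimp only at e1 e2 e3 e4 e5
      have e6 : 2 * (c + 1) = 2 * c + 2 := by ring
      rw [e6] at e3
      exact hfr.swap.mem_vert (e1.trans hY.symm) hY.symm (by linarith) (by linarith)
    rcases hz' with e | e | e | e
    · exact ⟨false, c, by omega, hx c (Or.inl rfl) e⟩
    · exact ⟨false, c + 1, hc, hx (c + 1) (Or.inr rfl) e⟩
    · exact ⟨true, r, by omega, hy r (Or.inl rfl) e⟩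
    · exact ⟨true, r + 1, hr, hy (r + 1) (Or.inr rfl) e⟩
  · intro c r p p' y z hc hr hp hz hzr hpy hy
    obtain ⟨s, t, hs, ht, hst, rfl⟩ := hz
    obtain ⟨a1, a2, a3, a4⟩ := hzr
    rw [hfr.aX' _ _ _ _ hst] at a1 a2
    rw [hfr.aY' _ _ _ _ hst] at a3 a4
    refine hcore p y (h.through hc hr hp.symm (s := s) hs (by linarith) ?_) hpy hy
    have e1 : 1 - s = t := by linarith
    refine ⟨?_, ?_, ?_, ?_⟩
    · dsimp only; rw [e1]; linarith
    · dsimp only; rw [e1]; linarith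
    · dsimp only; rw [e1]; linarith
    · dsimp only; rw [e1]; linarith

theorem conj_comb (z z' : ℂ) (s t : ℝ) : (starRingEnd ℂ) (s • z + t • z') =
    s • (starRingEnd ℂ) z + t • (starRingEnd ℂ) z' := by
  simp [Complex.real_smul]

theorem conj_openSegment {u v z : ℂ}
    (h : (starRingEnd ℂ) z ∈ openSegment ℝ ((starRingEnd ℂ) u) ((starRingEnd ℂ) v)) :
    z ∈ openSegment ℝ u v := by
  obtain ⟨s, t, hs, ht, hst, h1⟩ := h
  refine ⟨s, t, hs, ht, hst, ?_⟩
  rw [← conj_comb] at h1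
  exact (starRingEnd ℂ).injective h1

theorem conj_segment {u v z : ℂ} (h : z ∈ segment ℝ u v) :
    (starRingEnd ℂ) z ∈ segment ℝ ((starRingEnd ℂ) u) ((starRingEnd ℂ) v) := by
  obtain ⟨s, t, hs, ht, hst, rfl⟩ := h
  exact ⟨s, t, hs, ht, hst, (conj_comb _ _ _ _).symm⟩

/-- F2: rectangles of the conjugate drawing -/
theorem Rects.conj {H : SimpleGraph V} {f : V → ℂ} {a b : V} {κ : GX → V} {M : ℕ}
    {ρ : ℕ → ℕ → Set ℂ} (h : Rects H (fun v => (starRingEnd ℂ) (f v)) a b κ M ρ) :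
    ∃ ρ', Rects H f a b κ M ρ' := by
  refine ⟨fun c r => (starRingEnd ℂ) ⁻¹' ρ c r, ?_, ?_, ?_, ?_, ?_, ?_, ?_⟩
  · exact fun c r => (h.op c r).preimage continuous_conj
  · intro c r z hz z' hz' s t hs ht hst
    change (starRingEnd ℂ) (s • z + t • z') ∈ ρ c r
    rw [conj_comb]
    exact h.cv c r hz hz' hs ht hst
  · intro c r c' r' hc hr hc' hr' hne
    exact (h.dj c r c' r' hc hr hc' hr' hne).preimage _
  · exact fun c r hc hr => h.mem c r hc hr
  · exact fun c r v hc0 hc hr0 hr hv => h.nbr c r v hc0 hc hr0 hr hv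
  · intro c r z hc hr hz
    have hz' : (starRingEnd ℂ) z ∈ frontier (ρ c r) :=
      continuous_conj.frontier_preimage_subset (ρ c r) hz
    obtain ⟨σ, k, hk, h1⟩ := h.fr c r _ hc hr hz'
    exact ⟨σ, k, hk, conj_openSegment h1⟩
  · intro c r p p' y z hc hr hp hz hzr hpy hy
    exact h.thr c r p p' y _ hc hr hp (conj_segment hz) hzr hpy hy

end Pool.Agent.Helper82.DG
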